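import Pool.Agent.Helper69.MF.StB

/-!
# Project MF, module G5: there are no normal points
-/

set_option autoImplicit false

namespace Pool.Agent.Helper20.MF

open Set Topology Filter MeasureTheory
open Pool.Agent.Helper31.CY Pool.Agent.Helper69.MF

private theorem cont_coord (i : Fin 3) : Continuous fun x : E3 => x i := by fun_prop

private theorem dt_Jv (x q : E3) : dt x (Jv q) = -(q 1) * x 0 + q 0 * x 1 := by
  simp [dt, Jv, pt]
  ring

/-- G5 -/
theorem hG5 : StG1 → StG2 → StG3 → StG4 → StG5 := by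
  intro G1 G2 G3 G4 r0 r1 h S hr0 hr1 hS hTN q hq
  have hSc : IsClosed S := hS.cpt.isClosed
  set ξ : E3 → ℝ := fun x => q 0 * x 0 + q 1 * x 1 with hξ
  have cξ : Continuous ξ := by
    have h0 := cont_coord 0
    have h1 := cont_coord 1
    rw [hξ]
    fun_prop
  have hqr : 0 < q 0 ^ 2 + q 1 ^ 2 := by
    have := hq.2.2.2.1
    unfold rad at this
    exact Real.sqrt_pos.1 this
  set Z : Set E3 := {x | NP r0 r1 h S x ∧ dt x (Jv q) = 0 ∧ ξ q ≤ ξ x} with hZ
  have hqZ : q ∈ Z := ⟨hq, by rw [dt_Jv]; ring, le_rfl⟩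
  have hZS : Z ⊆ S := fun x hx => hx.1.1
  have hcS : closure Z ⊆ S := closure_minimal hZS hSc
  have hcc : IsCompact (closure Z) := hS.cpt.of_isClosed_subset isClosed_closure hcS
  obtain ⟨y, hy, hmax⟩ := hcc.exists_isMaxOn ⟨q, subset_closure hqZ⟩ cξ.continuousOn
  obtain ⟨z, hz, hzy⟩ := mem_closure_iff_seq_limit.1 hy
  have hyS : y ∈ S := hcS hy
  have hyP : dt y (Jv q) = 0 := by
    have hc : IsClosed {x : E3 | dt x (Jv q) = 0} := by
      have : {x : E3 | dt x (Jv q) = 0} = {x : E3 | -(q 1) * x 0 + q 0 * x 1 = 0} := by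
        ext x
        simp only [Set.mem_ofPred_eq, dt_Jv]
      rw [this]
      have h0 := cont_coord 0
      have h1 := cont_coord 1
      exact isClosed_eq (by fun_prop) continuous_const
    exact hc.mem_of_tendsto hzy (Eventually.of_forall fun n => (hz n).2.1)
  have hyξ : ξ q ≤ ξ y := hmax (subset_closure hqZ)
  have hξq : ξ q = q 0 ^ 2 + q 1 ^ 2 := by
    simp only [hξ]
    ring
  have hyr : 0 < y 0 ^ 2 + y 1 ^ 2 := by
    have h1 : 0 < q 0 * y 0 + q 1 * y 1 := by
      have : ξ y = q 0 * y 0 + q 1 * y 1 := rfl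
      linarith
    by_contra hcon
    have h2 : y 0 = 0 := by nlinarith [sq_nonneg (y 0), sq_nonneg (y 1)]
    have h3 : y 1 = 0 := by nlinarith [sq_nonneg (y 0), sq_nonneg (y 1)]
    rw [h2, h3] at h1
    simp at h1
  have hyrad : 0 < rad y := Real.sqrt_pos.2 hyr
  have hyG : y ∉ circ r0 0 ∪ circ r1 h := fun hg =>
    G3 r0 r1 h S y z hr0 hr1 hS hg (fun n => (hz n).1) hzy
  have hyreg : RegP S y := by
    rcases hS.int y hyS hyG with hr | hm
    · exact hr
    · exact (G4 r0 r1 h S y z hS hTN hyS hyG hyrad hm (fun n => (hz n).1) hzy).elim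
  have hyNP : NP r0 r1 h S y := G2 r0 r1 h S y z hyS hyG hyreg hyrad (fun n => (hz n).1) hzy
  obtain ⟨ε, hε, hn, hiff⟩ := G1 r0 r1 h S hTN y hyNP
  -- move in the radial direction
  have hcont : Tendsto (fun t : ℝ => y + t • pt (q 0) (q 1) 0) (𝓝 0) (𝓝 y) := by
    have hc : Continuous (fun t : ℝ => y + t • pt (q 0) (q 1) 0) := by fun_prop
    have := hc.tendsto 0
    simpa using this
  have hev : ∀ᶠ t : ℝ in 𝓝[>] 0, dist (y + t • pt (q 0) (q 1) 0) y < ε :=
    (hcont.mono_left nhdsWithin_le_nhds).eventually (Metric.ball_mem_nhds y hε)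
  obtain ⟨t, ht, htpos⟩ := (hev.and self_mem_nhdsWithin).exists
  have htp : (0 : ℝ) < t := htpos
  set x : E3 := y + t • pt (q 0) (q 1) 0 with hx
  have x0 : x 0 = y 0 + t * q 0 := by simp [hx, pt]
  have x1 : x 1 = y 1 + t * q 1 := by simp [hx, pt]
  have hyP' : -(q 1) * y 0 + q 0 * y 1 = 0 := by rw [← dt_Jv]; exact hyP
  have hxS : x ∈ S := by
    rw [hiff x ht, dt_Jv, x0, x1]
    linear_combination (-t) * hyP'
  have hxZ : x ∈ Z := by
    refine ⟨hn x hxS ht, ?_, ?_⟩
    · rw [dt_Jv, x0, x1]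
      linear_combination hyP'
    · have : ξ x = ξ y + t * (q 0 ^ 2 + q 1 ^ 2) := by
        simp only [hξ, x0, x1]
        ring
      rw [this]
      have := mul_pos htp hqr
      linarith
  have hle : ξ x ≤ ξ y := hmax (subset_closure hxZ)
  have : ξ x = ξ y + t * (q 0 ^ 2 + q 1 ^ 2) := by
    simp only [hξ, x0, x1]
    ring
  have := mul_pos htp hqr
  linarith

end Pool.Agent.Helper20.MF
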